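import Mathlib
import Pool.Agent.P8H96.SP.Stm

/-!
# Project SP, part CLS: nonzero zeros of a complex polynomial with few monomials force a large
sum of squares of power sums of the normalized zeros
-/

set_option autoImplicit false

open Finset Polynomial

namespace Pool.Agent.P8H84.SP

/-- the value of `F` at the normalized point -/
noncomputable def gv (F : ℂ[X]) (z : ℂ) : ℂ := ∑ j ∈ F.support, F.coeff j * (z / ‖z‖) ^ j

lemma norm_dir {z : ℂ} (h0 : z ≠ 0) : ‖z / (‖z‖ : ℂ)‖ = 1 := by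
  have h : ‖z‖ ≠ 0 := norm_ne_zero_iff.mpr h0
  rw [norm_div, Complex.norm_real, norm_norm, div_self h]

lemma dir_eq {z : ℂ} (h0 : z ≠ 0) : z = ‖z‖ * (z / (‖z‖ : ℂ)) := by
  have h : (‖z‖ : ℂ) ≠ 0 := by
    exact_mod_cast norm_ne_zero_iff.mpr h0
  field_simp

lemma gv_small {F : ℂ[X]} {z : ℂ} (h0 : z ≠ 0) (hF : F.eval z = 0) :
    ‖gv F z‖ ^ 2 ≤ (∑ j ∈ F.support, ‖F.coeff j‖) ^ 2 *
      (2 * F.natDegree * |Real.log ‖z‖|) := by
  set L := ∑ j ∈ F.support, ‖F.coeff j‖ with hL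
  set ρ := Real.log ‖z‖ with hρ
  have hL0 : 0 ≤ L := Finset.sum_nonneg fun _ _ => norm_nonneg _
  have hpos : 0 < ‖z‖ := norm_pos_iff.mpr h0
  have hexp : Real.exp ρ = ‖z‖ := Real.exp_log hpos
  have hu := norm_dir h0
  -- vanishing
  have hz : ∑ j ∈ F.support, F.coeff j * ((‖z‖ ^ j : ℝ) : ℂ) * (z / ‖z‖) ^ j = 0 := by
    rw [← hF, Polynomial.eval_eq_sum, Polynomial.sum_def]
    refine Finset.sum_congr rfl fun j _ => ?_
    conv_rhs => rw [dir_eq h0]
    rw [mul_pow]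
    push_cast
    ring
  -- trivial bound
  have htriv : ‖gv F z‖ ≤ L := by
    rw [gv, hL]
    refine (norm_sum_le _ _).trans (le_of_eq ?_)
    refine Finset.sum_congr rfl fun j _ => ?_
    rw [norm_mul, norm_pow, hu, one_pow, mul_one]
  have hD0 : (0:ℝ) ≤ F.natDegree := Nat.cast_nonneg _
  rcases le_total (F.natDegree * |ρ|) (1/2) with h | h
  · have hsm : ‖gv F z‖ ≤ L * (2 * F.natDegree * |ρ|) := by
      have e : gv F z = ∑ j ∈ F.support, F.coeff j * ((1 - ‖z‖ ^ j : ℝ) : ℂ) * (z / ‖z‖) ^ j := by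
        have e1 : ∑ j ∈ F.support, F.coeff j * ((1 - ‖z‖ ^ j : ℝ) : ℂ) * (z / ‖z‖) ^ j =
            gv F z - ∑ j ∈ F.support, F.coeff j * ((‖z‖ ^ j : ℝ) : ℂ) * (z / ‖z‖) ^ j := by
          rw [gv, ← Finset.sum_sub_distrib]
          refine Finset.sum_congr rfl fun j _ => ?_
          push_cast; ring
        rw [e1, hz, sub_zero]
      rw [e, hL, Finset.sum_mul]
      refine (norm_sum_le _ _).trans (Finset.sum_le_sum fun j hj => ?_)
      rw [norm_mul, norm_mul, norm_pow, hu, one_pow, mul_one, Complex.norm_real,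
        Real.norm_eq_abs]
      apply mul_le_mul_of_nonneg_left _ (norm_nonneg _)
      have hjD : (j:ℝ) ≤ F.natDegree := by
        exact_mod_cast Polynomial.le_natDegree_of_mem_supp j hj
      have h1 : ‖z‖ ^ j = Real.exp (j * ρ) := by
        rw [← hexp, ← Real.exp_nat_mul]
      have h2 : |(j:ℝ) * ρ| ≤ F.natDegree * |ρ| := by
        rw [abs_mul, abs_of_nonneg (Nat.cast_nonneg j)]
        exact mul_le_mul_of_nonneg_right hjD (abs_nonneg _)
      rw [h1, abs_sub_comm]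
      refine (Real.abs_exp_sub_one_le (by linarith)).trans ?_
      linarith
    have h3 : (2 * F.natDegree * |ρ|) ≤ 1 := by linarith
    have h4 : 0 ≤ 2 * F.natDegree * |ρ| := by positivity
    calc ‖gv F z‖ ^ 2 ≤ (L * (2 * F.natDegree * |ρ|)) ^ 2 :=
          pow_le_pow_left₀ (norm_nonneg _) hsm 2
      _ = L ^ 2 * ((2 * F.natDegree * |ρ|) * (2 * F.natDegree * |ρ|)) := by ring
      _ ≤ L ^ 2 * ((2 * F.natDegree * |ρ|) * 1) := by gcongr
      _ = _ := by ring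
  · have h3 : 1 ≤ 2 * F.natDegree * |ρ| := by linarith
    calc ‖gv F z‖ ^ 2 ≤ L ^ 2 * 1 := by
          rw [mul_one]; exact pow_le_pow_left₀ (norm_nonneg _) htriv 2
      _ ≤ _ := by gcongr

/-- Gram matrix argument -/
lemma gramC {ι : Type} (T : Finset ι) (z : ι → ℂ) (F : ℂ[X]) (h0 : ∀ t ∈ T, z t ≠ 0) :
    (T.card : ℝ) * (∑ j ∈ F.support, ‖F.coeff j‖ ^ 2) -
      Real.sqrt (∑ j ∈ F.support, ∑ l ∈ F.support, if j = l then 0 else
        ‖∑ t ∈ T, (z t / ‖z t‖) ^ j * starRingEnd ℂ ((z t / ‖z t‖) ^ l)‖ ^ 2) *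
        (∑ j ∈ F.support, ‖F.coeff j‖ ^ 2) ≤ ∑ t ∈ T, ‖gv F (z t)‖ ^ 2 := by
  classical
  set S : ℕ → ℕ → ℂ := fun j l => ∑ t ∈ T, (z t / ‖z t‖) ^ j * starRingEnd ℂ ((z t / ‖z t‖) ^ l)
    with hS
  set Q := ∑ j ∈ F.support, ‖F.coeff j‖ ^ 2 with hQ
  have hQ0 : 0 ≤ Q := Finset.sum_nonneg fun _ _ => sq_nonneg _
  have e1 : ∑ t ∈ T, ‖gv F (z t)‖ ^ 2 = ∑ j ∈ F.support, ∑ l ∈ F.support,
      (F.coeff j * starRingEnd ℂ (F.coeff l) * S j l).re := by
    have h1 : ∀ t ∈ T, ‖gv F (z t)‖ ^ 2 = ∑ j ∈ F.support, ∑ l ∈ F.support,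
        (F.coeff j * starRingEnd ℂ (F.coeff l) *
          ((z t / ‖z t‖) ^ j * starRingEnd ℂ ((z t / ‖z t‖) ^ l))).re := by
      intro t _
      have h2 : ((‖gv F (z t)‖ ^ 2 : ℝ) : ℂ) = ∑ j ∈ F.support, ∑ l ∈ F.support,
          (F.coeff j * starRingEnd ℂ (F.coeff l) *
            ((z t / ‖z t‖) ^ j * starRingEnd ℂ ((z t / ‖z t‖) ^ l))) := by
        rw [← Complex.normSq_eq_norm_sq, ← Complex.mul_conj, gv, map_sum, Finset.sum_mul_sum]
        refine Finset.sum_congr rfl fun j _ => Finset.sum_congr rfl fun l _ => ?_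
        rw [map_mul]
        ring
      have h3 := congrArg Complex.re h2
      rw [Complex.ofReal_re, Complex.re_sum] at h3
      rw [h3]
      refine Finset.sum_congr rfl fun j _ => ?_
      rw [Complex.re_sum]
    rw [Finset.sum_congr rfl h1, Finset.sum_comm]
    refine Finset.sum_congr rfl fun j _ => ?_
    rw [Finset.sum_comm]
    refine Finset.sum_congr rfl fun l _ => ?_
    rw [hS]
    simp only
    rw [Finset.mul_sum, Complex.re_sum]
  rw [e1]
  have hterm : ∀ j ∈ F.support, ∀ l ∈ F.support,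
      (if j = l then (T.card:ℝ) * ‖F.coeff j‖ ^ 2 else 0) -
        (‖F.coeff j‖ * ‖F.coeff l‖) * (if j = l then 0 else ‖S j l‖) ≤
      (F.coeff j * starRingEnd ℂ (F.coeff l) * S j l).re := by
    intro j hj l hl
    by_cases hjl : j = l
    · subst hjl
      rw [if_pos rfl, if_pos rfl, mul_zero, sub_zero]
      have h1 : S j j = T.card := by
        have h2 : ∀ t ∈ T, (z t / ‖z t‖) ^ j * starRingEnd ℂ ((z t / ‖z t‖) ^ j) = 1 := by
          intro t ht
          rw [Complex.mul_conj, Complex.normSq_eq_norm_sq, norm_pow, norm_dir (h0 t ht)]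
          simp
        rw [hS]
        simp only
        rw [Finset.sum_congr rfl h2]
        simp
      have h3 : F.coeff j * starRingEnd ℂ (F.coeff j) * S j j =
          ((T.card * ‖F.coeff j‖ ^ 2 : ℝ) : ℂ) := by
        rw [h1, Complex.mul_conj, Complex.normSq_eq_norm_sq]
        push_cast
        ring
      rw [h3, Complex.ofReal_re]
    · rw [if_neg hjl, if_neg hjl, zero_sub]
      have h2 : |(F.coeff j * starRingEnd ℂ (F.coeff l) * S j l).re| ≤
          (‖F.coeff j‖ * ‖F.coeff l‖) * ‖S j l‖ := by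
        refine (Complex.abs_re_le_norm _).trans (le_of_eq ?_)
        rw [norm_mul, norm_mul, RCLike.norm_conj]
      have h4 := neg_abs_le (F.coeff j * starRingEnd ℂ (F.coeff l) * S j l).re
      linarith
  have hsum := Finset.sum_le_sum fun j hj => Finset.sum_le_sum fun l hl => hterm j hj l hl
  refine le_trans ?_ hsum
  simp_rw [Finset.sum_sub_distrib, Finset.sum_ite_eq]
  have e2 : ∑ j ∈ F.support, (if j ∈ F.support then (T.card:ℝ) * ‖F.coeff j‖ ^ 2 else 0) =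
      T.card * Q := by
    rw [hQ, Finset.mul_sum]
    refine Finset.sum_congr rfl fun j hj => ?_
    rw [if_pos hj]
  rw [e2]
  -- Cauchy-Schwarz over pairs
  have hcs : ∑ j ∈ F.support, ∑ l ∈ F.support,
      (‖F.coeff j‖ * ‖F.coeff l‖) * (if j = l then 0 else ‖S j l‖) ≤
      Real.sqrt (∑ j ∈ F.support, ∑ l ∈ F.support, if j = l then 0 else ‖S j l‖ ^ 2) * Q := by
    rw [← Finset.sum_product', ← Finset.sum_product']
    refine le_trans (Real.sum_mul_le_sqrt_mul_sqrt _ _ _) ?_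
    have e3 : ∑ p ∈ F.support ×ˢ F.support, (‖F.coeff p.1‖ * ‖F.coeff p.2‖) ^ 2 = Q ^ 2 := by
      rw [Finset.sum_product, hQ, sq (∑ j ∈ F.support, ‖F.coeff j‖ ^ 2), Finset.sum_mul_sum]
      refine Finset.sum_congr rfl fun j _ => Finset.sum_congr rfl fun l _ => ?_
      ring
    have e4 : ∑ p ∈ F.support ×ˢ F.support, (if p.1 = p.2 then (0:ℝ) else ‖S p.1 p.2‖) ^ 2 =
        ∑ p ∈ F.support ×ˢ F.support, (if p.1 = p.2 then (0:ℝ) else ‖S p.1 p.2‖ ^ 2) := by
      refine Finset.sum_congr rfl fun p _ => ?_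
      split_ifs
      · norm_num
      · rfl
    rw [e3, e4, Real.sqrt_sq hQ0, mul_comm]
  linarith

/-- CLS -/
theorem cls : Pool.Agent.P8H96.SP.S_CLS := by
  intro ι T z F hF hz
  have h1 := gramC T z F (fun t ht => (hz t ht).1)
  set H := Real.sqrt (∑ j ∈ F.support, ∑ l ∈ F.support, if j = l then 0 else
        ‖∑ t ∈ T, (z t / ‖z t‖) ^ j * starRingEnd ℂ ((z t / ‖z t‖) ^ l)‖ ^ 2) with hH
  set Q := ∑ j ∈ F.support, ‖F.coeff j‖ ^ 2 with hQ
  set L := ∑ j ∈ F.support, ‖F.coeff j‖ with hL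
  have hQ0 : 0 < Q := by
    obtain ⟨i, hi⟩ := Polynomial.support_nonempty.mpr hF
    apply Finset.sum_pos' (fun _ _ => sq_nonneg _) ⟨i, hi, _⟩
    have : F.coeff i ≠ 0 := Polynomial.mem_support_iff.mp hi
    have := norm_pos_iff.mpr this
    positivity
  have hLQ : L ^ 2 ≤ F.support.card * Q :=
    sq_sum_le_card_mul_sum_sq (s := F.support) (f := fun j => ‖F.coeff j‖)
  have h2 : ∑ t ∈ T, ‖gv F (z t)‖ ^ 2 ≤ L ^ 2 * (2 * F.natDegree * ∑ t ∈ T, |Real.log ‖z t‖|) := by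
    refine (Finset.sum_le_sum fun t ht => gv_small (hz t ht).1 (hz t ht).2).trans (le_of_eq ?_)
    rw [Finset.mul_sum, Finset.mul_sum]
  have hA : 0 ≤ ∑ t ∈ T, |Real.log ‖z t‖| := Finset.sum_nonneg fun _ _ => abs_nonneg _
  have h4 : L ^ 2 * (2 * F.natDegree * ∑ t ∈ T, |Real.log ‖z t‖|) ≤
      (F.support.card * Q) * (2 * F.natDegree * ∑ t ∈ T, |Real.log ‖z t‖|) :=
    mul_le_mul_of_nonneg_right hLQ (by positivity)
  have h5 : (T.card : ℝ) * Q ≤
      (H + 2 * F.support.card * F.natDegree * ∑ t ∈ T, |Real.log ‖z t‖|) * Q := by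
    nlinarith
  exact le_of_mul_le_mul_right h5 hQ0

end Pool.Agent.P8H84.SP
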