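import Mathlib
import Pool.Agent.P8H96.SP.Stm

/-!
# Project SP, part FOU: the equidistribution inequality relative to a number field
-/

set_option autoImplicit false

open Finset Polynomial Module Pool.Agent.H388SL Pool.Agent.P8H96.SP

namespace Pool.Agent.P8H84.SP

/-- FOU -/
theorem fou : S_CARD → S_NRM → S_FOU := by
  intro hC hN k M _ _ _ _ _ β hβ htop
  classical
  obtain ⟨hcard, hpart⟩ := hC k M
  obtain ⟨hinj, hdisc⟩ := hN k M β hβ htop
  set D := finrank k M with hD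
  have hD0 : 1 ≤ D := finrank_pos
  have hD1 : (1:ℝ) ≤ D := by exact_mod_cast hD0
  have hk : Fintype.card (k →ₐ[ℚ] ℂ) = finrank ℚ k := AlgHom.card ℚ k ℂ
  set N : ℝ := 2 * D with hNd
  have hN2 : 2 ≤ N := by linarith
  have ht0 : 0 ≤ 1 - 1 / N := by
    rw [sub_nonneg, div_le_one (by linarith)]; linarith
  have ht1 : 1 - 1 / N < 1 := by
    have : 0 < 1 / N := by positivity
    linarith
  have e1 : 1 / (1 - (1 - 1 / N)) = N := by
    field_simp; ring
  have e2 : Real.log (2 / (1 + (1 - 1 / N))) ≤ 1 / N := by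
    have h1 : 1 + (1 - 1 / N) = (2 * N - 1) / N := by field_simp; ring
    have h2 : 2 / (1 + (1 - 1 / N)) = 1 + 1 / (2 * N - 1) := by
      rw [h1]
      have : 2 * N - 1 ≠ 0 := by nlinarith
      field_simp; ring
    rw [h2]
    have h3 : 0 < 1 / (2 * N - 1) := by apply div_pos one_pos; nlinarith
    have h4 := Real.log_le_sub_one_of_pos (show 0 < 1 + 1 / (2 * N - 1) by linarith)
    have h5 : 1 / (2 * N - 1) ≤ 1 / N := by
      apply one_div_le_one_div_of_le (by linarith); linarith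
    linarith
  have h5 : (D:ℝ) ^ 2 * Real.log (2 / (1 + (1 - 1 / N))) ≤ D / 2 := by
    calc (D:ℝ) ^ 2 * Real.log (2 / (1 + (1 - 1 / N))) ≤ (D:ℝ) ^ 2 * (1 / N) :=
          mul_le_mul_of_nonneg_left e2 (by positivity)
      _ = D / 2 := by rw [hNd]; field_simp
  have h3 : (1:ℝ) / 2 ≤ 1 - 1 / N := by
    have : 1 / N ≤ 1 / 2 := one_div_le_one_div_of_le (by norm_num) hN2
    linarith
  have key : ∀ σ : k →ₐ[ℚ] ℂ,
      (∑ τ ∈ cl (M := M) σ, ∑ τ' ∈ cl (M := M) σ,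
        (if τ = τ' then 0 else Real.log ‖τ β - τ' β‖)) +
      1 / 2 * ‖∑ τ ∈ cl (M := M) σ, H388SL.refl (τ β)‖ ^ 2 ≤
      2 * D * (∑ τ ∈ cl (M := M) σ, Real.log (max 1 ‖τ β‖)) + (D / 2 + D * Real.log N) := by
    intro σ
    have hE := energy (cl (M := M) σ) (fun _ => (1:ℝ)) (fun _ _ => zero_le_one)
      (fun τ => τ β) (fun τ hτ τ' hτ' h h' => h (hinj σ τ hτ τ' hτ' h')) ht0 ht1
    rw [e1] at hE
    simp only [one_mul, Finset.sum_const, hcard σ, nsmul_eq_mul, mul_one,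
      one_pow, Complex.ofReal_one] at hE
    have h4 : (1:ℝ) / 2 * ‖∑ τ ∈ cl (M := M) σ, H388SL.refl (τ β)‖ ^ 2 ≤
        (1 - 1 / N) * ‖∑ τ ∈ cl (M := M) σ, H388SL.refl (τ β)‖ ^ 2 :=
      mul_le_mul_of_nonneg_right h3 (by positivity)
    linarith
  have hsum := Finset.sum_le_sum fun (σ : k →ₐ[ℚ] ℂ) (_ : σ ∈ Finset.univ) => key σ
  simp only [Finset.sum_add_distrib, ← Finset.mul_sum, Finset.sum_const, Finset.card_univ, hk,
    nsmul_eq_mul] at hsum
  have hlam : ∑ σ : k →ₐ[ℚ] ℂ, ∑ τ ∈ cl (M := M) σ, Real.log (max 1 ‖τ β‖) = lam β :=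
    hpart (fun τ => Real.log (max 1 ‖τ β‖))
  rw [hlam] at hsum
  have hd : 0 ≤ ∑ σ : k →ₐ[ℚ] ℂ, ∑ τ ∈ cl (M := M) σ, ∑ τ' ∈ cl (M := M) σ,
      (if τ = τ' then 0 else Real.log ‖τ β - τ' β‖) := by
    convert hdisc using 9
  linarith

end Pool.Agent.P8H84.SP
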